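import Pool.Agent.helper32.QS.Spec

/-!
# Project qs: the two-orbit theorem (assembly TWO)
-/

set_option autoImplicit false

namespace QS

open scoped BigOperators commutatorElement

/-- monotonicity of `TwoFor` -/
theorem TWO_mono (p M N : ℕ) (hMN : M ≤ N) (h : TwoFor p N) : TwoFor p M := by
  intro V _ _ H _ _ _ hV hnt hs hf hi hp
  exact h V H (lt_of_lt_of_le hV hMN) hnt hs hf hi hp

/-- the two-orbit theorem -/
theorem TWO (hIMP : IMP_stmt) (hQPR : QPR_stmt) (hKF : KF_stmt) (hTOC : TOC_stmt) : TWO_stmt := by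
  intro p hp h5 N
  induction N with
  | zero =>
    intro V _ _ H _ _ _ hV
    exact absurd hV (Nat.not_lt_zero _)
  | succ N ih =>
    intro V _ _ H _ _ _ hV hnt hs hf hi hpV
    have hle : Nat.card V ≤ N := Nat.lt_succ_iff.1 hV
    have hT : TwoFor p (Nat.card V) := TWO_mono p _ N hle ih
    by_cases him : Impr H V
    · exact hIMP p hp h5 V H hnt hs hf hi hpV him hT
    · have hqp : QP H V := hQPR V H hnt hi him
      obtain ⟨k, hk1, hk2, hk3, hsld⟩ := hKF V H hnt hs hf hqp
      exact hTOC k V H hsld p hp h5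

end QS
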