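import Pool.Agent.helper32.QS.Spec

/-!
# Project qs: Heisenberg pairs acting on a chief factor of exponent `p` (YB)
-/

set_option autoImplicit false

namespace QS

open scoped BigOperators commutatorElement

/-- C7 with a commutativity hypothesis in place of the instance -/
theorem YB_aux (hC7 : C7_stmt) (M : Type) [Group M] [Finite M] (hcomm : ∀ a b : M, a * b = b * a)
    (p : ℕ) (hp : p.Prime) (h5 : 5 ≤ p) (hexp : ∀ m : M, m ^ p = 1) (R : Subgroup (MulAut M))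
    (hs : Group.IsSolvable R)
    (hirr : ∀ W : Subgroup M, (∀ h ∈ R, ∀ w ∈ W, h w ∈ W) → W = ⊥ ∨ W = ⊤)
    (x : MulAut M) (hx : x ∈ R) (y : MulAut M) (hy : y ∈ R) (hxy : Heis p x y) :
    15625 ≤ Nat.card M := by
  letI inst : CommGroup M := { ‹Group M› with mul_comm := hcomm }
  exact hC7 M p hp h5 hexp R hs hirr x hx y hy hxy

theorem YB (hC7 : C7_stmt) : YB_stmt := by
  intro H _ _ p hp h5 hsol A Y hA hY hAY hYY hYp hmin x y hxy ⟨u, hu, huA⟩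
  haveI := hA
  haveI := hY
  obtain ⟨M, hM⟩ : ∃ M : Subgroup (H ⧸ A), M = Y.map (QuotientGroup.mk' A) := ⟨_, rfl⟩
  have hMn : M.Normal := by
    rw [hM]
    exact hY.map _ (QuotientGroup.mk'_surjective A)
  have hmem : ∀ m : H ⧸ A, m ∈ M ↔ ∃ a ∈ Y, (a : H ⧸ A) = m := by
    intro m
    rw [hM, Subgroup.mem_map]
    rfl
  have hcard : Nat.card M = A.relIndex Y := by
    have h := Subgroup.relIndex_ker Y (QuotientGroup.mk' A)
    rw [QuotientGroup.ker_mk'] at h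
    rw [h, hM]
  rw [← hcard]
  haveI := hMn
  obtain ⟨ρ, hρ⟩ : ∃ ρ : H →* MulAut M, ∀ (h : H) (m : M),
      ((ρ h m : M) : H ⧸ A) = (h : H ⧸ A) * (m : H ⧸ A) * (h : H ⧸ A)⁻¹ := by
    refine ⟨(MulAut.conjNormal (H := M)).comp (QuotientGroup.mk' A), ?_⟩
    intro h m
    rfl
  have hcomm : ∀ a b : M, a * b = b * a := by
    intro a b
    obtain ⟨a', ha', hae⟩ := (hmem a).1 a.2
    obtain ⟨b', hb', hbe⟩ := (hmem b).1 b.2
    apply Subtype.ext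
    rw [Subgroup.coe_mul, Subgroup.coe_mul, ← hae, ← hbe]
    have h1 : ((⁅a', b'⁆ : H) : H ⧸ A) = 1 := (QuotientGroup.eq_one_iff _).2 (hYY a' ha' b' hb')
    have h2 : ⁅(a' : H ⧸ A), (b' : H ⧸ A)⁆ = 1 := by
      rw [← h1]; rfl
    exact commutatorElement_eq_one_iff_mul_comm.1 h2
  have hexp : ∀ m : M, m ^ p = 1 := by
    intro m
    obtain ⟨a', ha', hae⟩ := (hmem m).1 m.2
    apply Subtype.ext
    rw [Subgroup.coe_pow, ← hae]
    have : ((a' ^ p : H) : H ⧸ A) = 1 := (QuotientGroup.eq_one_iff _).2 (hYp a' ha')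
    exact this
  have hzne : ρ ⁅x, y⁆ ≠ 1 := by
    intro h1
    apply huA
    have huM : (u : H ⧸ A) ∈ M := (hmem _).2 ⟨u, hu, rfl⟩
    have h2 := hρ ⁅x, y⁆ ⟨u, huM⟩
    rw [h1] at h2
    have h3 : (u : H ⧸ A) = ((⁅x, y⁆ : H) : H ⧸ A) * (u : H ⧸ A) * ((⁅x, y⁆ : H) : H ⧸ A)⁻¹ := h2
    rw [← QuotientGroup.eq_one_iff]
    have h4 : ((⁅⁅x, y⁆, u⁆ : H) : H ⧸ A) =
        ((⁅x, y⁆ : H) : H ⧸ A) * (u : H ⧸ A) * ((⁅x, y⁆ : H) : H ⧸ A)⁻¹ * (u : H ⧸ A)⁻¹ := rfl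
    rw [h4, ← h3, mul_inv_cancel]
  have hHeis : Heis p (ρ x) (ρ y) := by
    obtain ⟨h1, h2, h3, h4, h5⟩ := hxy
    refine ⟨?_, ?_, ?_, ?_, ?_⟩
    · rw [← map_pow, h1, map_one]
    · rw [← map_pow, h2, map_one]
    · rw [← map_commutatorElement]
      exact hzne
    · rw [← map_commutatorElement, ← map_mul, ← map_mul, h4]
    · rw [← map_commutatorElement, ← map_mul, ← map_mul, h5]
  have hsolR : Group.IsSolvable ρ.range := by
    haveI := hsol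
    exact Group.isSolvable_of_surjective ρ.rangeRestrict_surjective
  refine YB_aux hC7 M hcomm p hp h5 hexp ρ.range hsolR ?_ (ρ x) ⟨x, rfl⟩ (ρ y) ⟨y, rfl⟩ hHeis
  intro W hW
  obtain ⟨Z, hZ⟩ : ∃ Z : Subgroup H, Z = (W.map M.subtype).comap (QuotientGroup.mk' A) := ⟨_, rfl⟩
  have hZm : ∀ z : H, z ∈ Z ↔ ∃ w ∈ W, ((w : M) : H ⧸ A) = (z : H ⧸ A) := by
    intro z
    rw [hZ, Subgroup.mem_comap, Subgroup.mem_map]
    rfl
  have hZn : Z.Normal := by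
    constructor
    intro z hz h
    obtain ⟨w, hw, hwz⟩ := (hZm z).1 hz
    refine (hZm _).2 ⟨ρ h w, hW _ ⟨h, rfl⟩ w hw, ?_⟩
    rw [hρ, hwz]
    rfl
  have hAZ : A ≤ Z := by
    intro a ha
    refine (hZm a).2 ⟨1, W.one_mem, ?_⟩
    rw [(QuotientGroup.eq_one_iff a).2 ha]
    rfl
  have hZY : Z ≤ Y := by
    intro z hz
    obtain ⟨w, hw, hwz⟩ := (hZm z).1 hz
    obtain ⟨a, ha, haw⟩ := (hmem w).1 w.2
    have h1 : (a : H ⧸ A) = (z : H ⧸ A) := haw.trans hwz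
    have h2 : a⁻¹ * z ∈ A := QuotientGroup.eq.1 h1
    have h3 : z = a * (a⁻¹ * z) := by group
    rw [h3]
    exact Y.mul_mem ha (hAY h2)
  rcases hmin Z hZn hAZ hZY with h | h
  · left
    rw [Subgroup.eq_bot_iff_forall]
    intro w hw
    obtain ⟨a, ha, haw⟩ := (hmem w).1 w.2
    have h1 : a ∈ Z := (hZm a).2 ⟨w, hw, haw.symm⟩
    have h2 : (a : H ⧸ A) = 1 := (QuotientGroup.eq_one_iff a).2 (h h1)
    apply Subtype.ext
    rw [← haw, h2]
    rfl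
  · right
    rw [Subgroup.eq_top_iff']
    intro m
    obtain ⟨a, ha, ham⟩ := (hmem m).1 m.2
    obtain ⟨w, hw, hwa⟩ := (hZm a).1 (h ha)
    have h1 : w = m := Subtype.ext (hwa.trans ham)
    rw [← h1]
    exact hw

end QS
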